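import Mathlib
import Pool.Agent.helper83.GR.Spec

/-!
# Project BR (MP_baa4d7_al): the Frobenius step of Broue-Puig integrality (pure)
-/

set_option autoImplicit false

namespace Pool.Agent.LE

open Pool.Agent.helper58.DC Pool.Agent.DI Pool.Agent.GR

theorem FRB_orb {p : ℕ} {M : Ideal (integralClosure ℤ ℂ)} (hS : Setup p M) (H : Type) [Group H] [Fintype H]
    (Z : Type) [Fintype Z] [MulAction H Z] (T : Z → ℂ) (hT : ∀ (h : H) (z : Z), T (h • z) = T z)
    (hI : ∀ z, IntAt M (T z / Nat.card (MulAction.stabilizer H z))) : IntAt M ((∑ z, T z) / Nat.card H) := by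
  classical
  let q : Z → MulAction.orbitRel.Quotient H Z := fun z => Quotient.mk'' z
  have h1 : ∑ z, T z = ∑ ω : MulAction.orbitRel.Quotient H Z, ∑ z ∈ Finset.univ.filter (fun z => q z = ω), T z :=
    (Finset.sum_fiberwise_of_maps_to (fun _ _ => Finset.mem_univ _) _).symm
  rw [h1, Finset.sum_div]
  refine IntAt.sum hS _ fun ω _ => ?_
  obtain ⟨z0, rfl⟩ : ∃ z0, q z0 = ω := Quotient.exists_rep ω
  have h2 : ∀ z ∈ Finset.univ.filter (fun z => q z = q z0), T z = T z0 := by
    intro z hz
    have h3 : q z = q z0 := (Finset.mem_filter.1 hz).2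
    have h4 : z ∈ MulAction.orbit H z0 := by
      have := Quotient.exact h3
      exact this
    obtain ⟨h, rfl⟩ := h4
    exact hT h z0
  rw [Finset.sum_congr rfl h2, Finset.sum_const, nsmul_eq_mul]
  have h5 : (Finset.univ.filter (fun z => q z = q z0)).card = Nat.card (MulAction.orbit H z0) := by
    rw [Nat.card_eq_fintype_card, Fintype.card_subtype]
    congr 1
    ext z
    simp only [Finset.mem_filter, Finset.mem_univ, true_and]
    constructor
    · intro h
      exact Quotient.exact h
    · intro h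
      exact Quotient.sound h
  have h6 : (Nat.card (MulAction.orbit H z0) : ℂ) * Nat.card (MulAction.stabilizer H z0) = Nat.card H := by
    have := MulAction.card_orbit_mul_card_stabilizer_eq_card_group H z0
    rw [← Nat.card_eq_fintype_card, ← Nat.card_eq_fintype_card, ← Nat.card_eq_fintype_card] at this
    exact_mod_cast this
  have h7 : (Nat.card (MulAction.stabilizer H z0) : ℂ) ≠ 0 := by
    exact_mod_cast (Nat.card_pos (α := MulAction.stabilizer H z0)).ne'
  have h8 : (Nat.card H : ℂ) ≠ 0 := by
    exact_mod_cast (Nat.card_pos (α := H)).ne'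
  rw [h5]
  have h9 : (Nat.card (MulAction.orbit H z0) : ℂ) * T z0 / Nat.card H = T z0 / Nat.card (MulAction.stabilizer H z0) := by
    rw [← h6]
    have h10 : (Nat.card (MulAction.orbit H z0) : ℂ) ≠ 0 := by
      intro h0
      rw [h0, zero_mul] at h6
      exact h8 h6.symm
    field_simp
  rw [h9]
  exact hI z0

/-- **FRB** (the Frobenius step). -/
theorem FRB {p : ℕ} {M : Ideal (integralClosure ℤ ℂ)} (hS : Setup p M) (H : Type) [Group H] [Finite H] (f : H → ℂ)
    (hf : ∀ h x, f (h * x * h⁻¹) = f x) (hi : ∀ x, IntAt M (f x))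
    (hP : ∀ P : Subgroup H, IsPGroup p P → IntAt M ((∑ᶠ u ∈ (P : Set H), f u) / Nat.card P)) :
    IntAt M ((∑ᶠ u ∈ {u : H | PEl p u}, f u) / Nat.card H) := by
  classical
  have : Fact p.Prime := ⟨hS.pr⟩
  have : Fintype H := Fintype.ofFinite H
  obtain ⟨a, m, hm, hcard⟩ := Nat.exists_eq_pow_mul_and_not_dvd (n := Nat.card H) (Nat.card_pos (α := H)).ne' p hS.pr.ne_one
  let P0 : Sylow p H := default
  let X : Type := H ⧸ (P0 : Subgroup H)
  have : Fintype X := Fintype.ofFinite X
  let j : ℕ := Nat.totient (p ^ a)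
  have hj : 0 < j := Nat.totient_pos.2 (pow_pos hS.pr.pos a)
  let fx : H → ℕ := fun u => (Finset.univ.filter (fun z : X => u • z = z)).card
  -- fixed points
  have hfx : ∀ u : H, PEl p u → (fx u) ^ j ≡ 1 [MOD p ^ a] := by
    intro u hu
    obtain ⟨k, hk⟩ := hu
    have hpg : IsPGroup p (Subgroup.zpowers u) := by
      rw [IsPGroup.iff_card]
      rw [Nat.card_zpowers]
      exact (Nat.dvd_prime_pow hS.pr).1 (orderOf_dvd_of_pow_eq_one hk) |>.imp fun n hn => hn.2
    have h1 := hpg.card_modEq_card_fixedPoints X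
    have h2 : Nat.card (MulAction.fixedPoints (Subgroup.zpowers u) X) = fx u := by
      rw [Nat.card_eq_fintype_card, Fintype.card_subtype]
      change _ = (Finset.univ.filter (fun z : X => u • z = z)).card
      congr 1
      ext z
      simp only [Finset.mem_filter, Finset.mem_univ, true_and, MulAction.mem_fixedPoints]
      constructor
      · intro h
        exact h ⟨u, Subgroup.mem_zpowers u⟩
      · rintro h ⟨g, hg⟩
        have h3 : g ∈ MulAction.stabilizer H z := by
          have h4 : Subgroup.zpowers u ≤ MulAction.stabilizer H z := by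
            rw [Subgroup.zpowers_le]
            exact h
          exact h4 hg
        exact h3
    have h3 : ¬ p ∣ Nat.card X := by
      have := P0.not_dvd_index
      rwa [Subgroup.index] at this
    have h4 : Nat.Coprime (fx u) (p ^ a) := by
      apply Nat.Coprime.pow_right
      rw [Nat.coprime_comm, hS.pr.coprime_iff_not_dvd]
      intro h5
      apply h3
      rw [h2] at h1
      exact (Nat.ModEq.dvd_iff h1 (dvd_refl p)).2 h5
    exact Nat.ModEq.pow_totient h4
  -- the tuples
  have hcnt : ∀ u : H, (Finset.univ.filter (fun z : Fin j → X => u • z = z)).card = fx u ^ j := by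
    intro u
    rw [← Fintype.card_subtype]
    have e : {z : Fin j → X // u • z = z} ≃ (Fin j → {x : X // u • x = x}) :=
      (Equiv.subtypeEquivRight fun z => by
        constructor
        · intro h i
          exact congrFun h i
        · intro h
          funext i
          exact h i).trans Equiv.subtypePiEquivPi
    rw [Fintype.card_congr e, Fintype.card_fun, Fintype.card_fin, Fintype.card_subtype]
  let T : (Fin j → X) → ℂ := fun z => ∑ u ∈ Finset.univ.filter (fun u : H => u • z = z), f u
  have hst : ∀ (z : Fin j → X), IsPGroup p (MulAction.stabilizer H z) := by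
    intro z
    obtain ⟨g, hg⟩ := QuotientGroup.mk_surjective (z ⟨0, hj⟩)
    have h1 : MulAction.stabilizer H z ≤ (P0 : Subgroup H).map (MulAut.conj g).toMonoidHom := by
      intro u hu
      have h2 : u • z = z := hu
      have h3 : u • (z ⟨0, hj⟩) = z ⟨0, hj⟩ := congrFun h2 ⟨0, hj⟩
      rw [← hg] at h3
      have h4 : ((u * g : H) : H ⧸ (P0 : Subgroup H)) = (g : H ⧸ (P0 : Subgroup H)) := h3
      rw [eq_comm, QuotientGroup.eq] at h4
      refine ⟨g⁻¹ * (u * g), h4, ?_⟩
      change g * (g⁻¹ * (u * g)) * g⁻¹ = u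
      group
    exact (P0.2.map _).to_le h1
  have hTT : ∀ z, T z = ∑ᶠ u ∈ ((MulAction.stabilizer H z : Subgroup H) : Set H), f u := by
    intro z
    rw [finsum_mem_eq_finite_toFinset_sum _ (Set.toFinite _)]
    apply Finset.sum_congr _ fun _ _ => rfl
    ext u
    simp only [Finset.mem_filter, Finset.mem_univ, true_and, Set.Finite.mem_toFinset]
    rfl
  have hTI : ∀ z, IntAt M (T z / Nat.card (MulAction.stabilizer H z)) := by
    intro z
    rw [hTT z]
    exact hP _ (hst z)
  have hTc : ∀ (h : H) (z : Fin j → X), T (h • z) = T z := by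
    intro h z
    change ∑ u ∈ Finset.univ.filter (fun u : H => u • (h • z) = h • z), f u = ∑ u ∈ Finset.univ.filter (fun u : H => u • z = z), f u
    symm
    refine Finset.sum_bij (fun u _ => h * u * h⁻¹) ?_ ?_ ?_ ?_
    · intro u hu
      have h1 : u • z = z := (Finset.mem_filter.1 hu).2
      refine Finset.mem_filter.2 ⟨Finset.mem_univ _, ?_⟩
      rw [← mul_smul]
      have h2 : h * u * h⁻¹ * h = h * u := by group
      rw [h2, mul_smul, h1]
    · intro u _ v _ huv
      have h1 : h * u * h⁻¹ = h * v * h⁻¹ := huv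
      have h2 := mul_right_cancel h1
      exact mul_left_cancel h2
    · intro v hv
      have h1 : v • (h • z) = h • z := (Finset.mem_filter.1 hv).2
      refine ⟨h⁻¹ * v * h, Finset.mem_filter.2 ⟨Finset.mem_univ _, ?_⟩, ?_⟩
      · rw [mul_smul, mul_smul, h1, inv_smul_smul]
      · group
    · intro u _
      exact (hf h u).symm
  have hmain := FRB_orb hS H (Fin j → X) T hTc hTI
  -- exchange
  have hex : ∑ z, T z = ∑ u ∈ Finset.univ.filter (fun u : H => PEl p u), f u * ((fx u : ℂ) ^ j) := by
    have h1 : ∀ z, T z = ∑ u ∈ Finset.univ.filter (fun u : H => PEl p u), if u • z = z then f u else 0 := by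
      intro z
      rw [← Finset.sum_filter]
      apply Finset.sum_congr _ fun _ _ => rfl
      ext u
      simp only [Finset.mem_filter, Finset.mem_univ, true_and]
      constructor
      · intro h
        refine ⟨?_, h⟩
        obtain ⟨k, hk⟩ := hst z ⟨u, h⟩
        exact ⟨k, by
          have := congrArg Subtype.val hk
          simpa using this⟩
      · intro h
        exact h.2
    rw [Finset.sum_congr rfl fun z _ => h1 z, Finset.sum_comm]
    refine Finset.sum_congr rfl fun u _ => ?_
    rw [← Finset.sum_filter, Finset.sum_const, hcnt u, nsmul_eq_mul, mul_comm]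
    push_cast
    rfl
  have hdef : ∑ᶠ u ∈ {u : H | PEl p u}, f u = ∑ u ∈ Finset.univ.filter (fun u : H => PEl p u), f u := by
    rw [finsum_mem_eq_finite_toFinset_sum _ (Set.toFinite _)]
    apply Finset.sum_congr _ fun _ _ => rfl
    ext u
    simp only [Finset.mem_filter, Finset.mem_univ, true_and, Set.Finite.mem_toFinset, Set.mem_ofPred_eq]
  have hc : ∀ u : H, PEl p u → ∃ c : ℤ, (fx u : ℂ) ^ j = 1 + (p : ℂ) ^ a * c := by
    intro u hu
    have h1 := hfx u hu
    have h2 : ((1 : ℕ) : ℤ) ≡ ((fx u ^ j : ℕ) : ℤ) [ZMOD ((p ^ a : ℕ) : ℤ)] := (Int.natCast_modEq_iff.2 h1).symm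
    obtain ⟨c, hc⟩ := (Int.modEq_iff_dvd.1 h2)
    refine ⟨c, ?_⟩
    have h3 : ((fx u ^ j : ℕ) : ℂ) - 1 = (p : ℂ) ^ a * c := by
      have := congrArg (fun t : ℤ => (t : ℂ)) hc
      push_cast at this
      push_cast
      exact this
    push_cast at h3
    linear_combination h3
  have hmne : (m : ℂ) ≠ 0 := by
    intro h0
    have : m = 0 := by exact_mod_cast h0
    exact hm (this ▸ dvd_zero p)
  have hmI : IntAt M ((m : ℂ)⁻¹) := by
    apply IntAt.inv hS (IntAt.natCast hS m)
    intro h
    exact hm ((InM.natCast hS m).1 h)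
  have hpne : (p : ℂ) ^ a ≠ 0 := pow_ne_zero _ hS.p_ne
  choose! c hc' using hc
  have hfin : (∑ᶠ u ∈ {u : H | PEl p u}, f u) / Nat.card H =
      (∑ z, T z) / Nat.card H - (∑ u ∈ Finset.univ.filter (fun u : H => PEl p u), f u * c u) * (m : ℂ)⁻¹ := by
    rw [hdef, hex, hcard]
    push_cast
    have h1 : ∑ u ∈ Finset.univ.filter (fun u : H => PEl p u), f u * ((fx u : ℂ) ^ j) =
        ∑ u ∈ Finset.univ.filter (fun u : H => PEl p u), f u +
          (p : ℂ) ^ a * ∑ u ∈ Finset.univ.filter (fun u : H => PEl p u), f u * c u := by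
      rw [Finset.mul_sum, ← Finset.sum_add_distrib]
      refine Finset.sum_congr rfl fun u hu => ?_
      rw [hc' u (Finset.mem_filter.1 hu).2]
      ring
    rw [h1]
    field_simp
    ring
  rw [hfin]
  refine IntAt.sub hS hmain (IntAt.mul hS (IntAt.sum hS _ fun u _ => IntAt.mul hS (hi u) ?_) hmI)
  exact IntAt.of_isIntegral hS (by
    have : IsIntegral ℤ ((algebraMap ℤ ℂ) (c u)) := isIntegral_algebraMap
    simpa using this)

end Pool.Agent.LE
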