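import Mathlib
import Pool.Agent.helper80.FIB.IDP
import Pool.Agent.helper48.FIB.SA1
import Pool.Agent.helper24.FIB.RPW

/-!
# Project BR (MP_baa4d7_al): `p ^ N`-th powers in the group algebra over the local ring
-/

set_option autoImplicit false

namespace Pool.Agent.LE

open Pool.Agent.helper58.DC Pool.Agent.DI Pool.Agent.GR Pool.Agent.OB Pool.Agent.FI

/-- high powers of a function with values in the maximal ideal -/
theorem PWL_high (hPRD : PRD_stmt) {p : ℕ} {M : Ideal (integralClosure ℤ ℂ)} (hS : Setup p M) {G : Type} [Group G]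
    [Finite G] (m : G → ℂ) (hm : ∀ x, InM M (m x)) (r : ℕ) : ∃ K : ℕ, ∀ k ≥ K, ∀ x, Small p M r (cvp m k x) := by
  obtain ⟨K, hK⟩ := hPRD p M hS (Set.range m) (Set.finite_range m) (by rintro t ⟨y, rfl⟩; exact hm y) r
  refine ⟨K, fun k hk x => ?_⟩
  have h2 := SA1_Q_cvp hS m k x r 1 (fun g hg => by
    rw [mul_one]
    exact hK k hk g hg)
  rwa [mul_one] at h2

/-- **PWL**. If `f` is an idempotent which commutes with `a` and `a ≡ f` modulo `M` then the `p ^ N`-th powers of `a` converge to `f`. -/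
theorem PWL (hPRD : PRD_stmt) {p : ℕ} {M : Ideal (integralClosure ℤ ℂ)} (hS : Setup p M) {G : Type} [Group G]
    [Finite G] (a f : G → ℂ) (hf : ∀ x, IntAt M (f x)) (hff : cv f f = f) (hc : cv a f = cv f a)
    (hm : ∀ x, InM M (a x - f x)) (r : ℕ) : ∃ N₀ : ℕ, ∀ N ≥ N₀, ∀ x, Small p M r (cvp a (p ^ N) x - f x) := by
  classical
  have : Fintype G := Fintype.ofFinite G
  set m : G → ℂ := a - f with hmdef
  have hmM : ∀ x, InM M (m x) := hm
  obtain ⟨K, hK⟩ := PWL_high hPRD hS m hmM r
  -- the matrices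
  set A := IDP_P a with hA
  set F := IDP_P f with hF
  set m' := IDP_P m with hm'
  have hAm : A = m' + F := by
    rw [hm', hmdef, map_sub, hA, hF]
    abel
  have hFF : F * F = F := by rw [hF, ← IDP_P_mul, hff]
  have hcA : Commute A F := by
    change A * F = F * A
    rw [hA, hF, ← IDP_P_mul, ← IDP_P_mul, hc]
  have hcm : Commute m' F := by
    have h1 : m' = A - F := by rw [hAm]; abel
    rw [h1]
    exact hcA.sub_left (Commute.refl F)
  have hFpow : ∀ j, 1 ≤ j → F ^ j = F := by
    intro j hj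
    induction j with
    | zero => omega
    | succ j ih =>
      rcases Nat.eq_zero_or_pos j with h0 | h0
      · subst h0
        rw [zero_add, pow_one]
      · rw [pow_succ, ih h0, hFF]
  have hmpow : ∀ k, m' ^ k = IDP_P (cvp m k) := fun k => (IDP_P_pow m k).symm
  -- integrality of the entries
  have hFi : ∀ j g x, IntAt M ((F ^ j) g x) := by
    intro j g x
    rcases Nat.eq_zero_or_pos j with h0 | h0
    · subst h0
      rw [pow_zero, Matrix.one_apply]
      split_ifs
      · exact IntAt.one hS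
      · exact IntAt.zero hS
    · rw [hFpow j h0]
      exact hf _
  have hmi : ∀ k g x, IntAt M ((m' ^ k) g x) := by
    intro k
    induction k with
    | zero =>
      intro g x
      rw [pow_zero, Matrix.one_apply]
      split_ifs
      · exact IntAt.one hS
      · exact IntAt.zero hS
    | succ k ih =>
      intro g x
      rw [pow_succ, Matrix.mul_apply]
      exact IntAt.sum hS _ fun y _ => IntAt.mul hS (ih g y) (hmM _).intAt
  refine ⟨r + K, fun N hN x => ?_⟩
  have hqpos : 0 < p ^ N := pow_pos hS.pr.pos N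
  have e1 : A ^ (p ^ N) - F = ∑ k ∈ Finset.range (p ^ N),
      m' ^ (k + 1) * F ^ (p ^ N - (k + 1)) * ((p ^ N).choose (k + 1) : Matrix G G ℂ) := by
    rw [hAm, hcm.add_pow, Finset.sum_range_succ']
    rw [pow_zero, Nat.choose_zero_right, Nat.cast_one, mul_one, one_mul, Nat.sub_zero, hFpow _ hqpos]
    abel
  have e2 : cvp a (p ^ N) x - f x = (A ^ (p ^ N) - F) x 1 := by
    rw [Matrix.sub_apply, hA, ← IDP_P_pow, IDP_P_apply, hF, IDP_P_apply, inv_one, mul_one]
  rw [e2, e1, Matrix.sum_apply]
  refine Small.sum hS _ fun k _ => ?_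
  have e3 : (m' ^ (k + 1) * F ^ (p ^ N - (k + 1)) * ((p ^ N).choose (k + 1) : Matrix G G ℂ)) x 1 =
      ((p ^ N).choose (k + 1) : ℂ) * (m' ^ (k + 1) * F ^ (p ^ N - (k + 1))) x 1 := by
    rw [← nsmul_eq_mul', Matrix.smul_apply, nsmul_eq_mul]
  rw [e3]
  by_cases hk : K ≤ k + 1
  · refine Small.mul_left hS (IntAt.natCast hS _) ?_
    rw [Matrix.mul_apply]
    refine Small.sum hS _ fun y _ => ?_
    rw [mul_comm]
    refine Small.mul_left hS (hFi _ _ _) ?_
    rw [hmpow, IDP_P_apply]
    exact hK _ hk _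
  · obtain ⟨c, hc'⟩ := RPW_dvd p hS.pr N r K (k + 1) (by omega) (by omega) (by omega)
    have h3 : Small p M r ((p ^ N).choose (k + 1) : ℂ) :=
      ⟨c, IntAt.natCast hS c, by rw [hc']; push_cast; rfl⟩
    rw [mul_comm]
    refine Small.mul_left hS ?_ h3
    rw [Matrix.mul_apply]
    exact IntAt.sum hS _ fun y _ => IntAt.mul hS (hmi _ _ _) (hFi _ _ _)

/-- The product of the entries of a tuple. -/
def tpr {G : Type} [Group G] {q : ℕ} (t : Fin q → G) : G := (List.ofFn t).prod

open Classical in
/-- **TUP**. Expansion of a power of the group algebra into tuples. -/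
theorem TUP {G : Type} [Group G] [Fintype G] (a : G → ℂ) (q : ℕ) (x : G) :
    cvp a q x = ∑ t : Fin q → G, if tpr t = x then ∏ i, a (t i) else 0 := by
  induction q generalizing x with
  | zero =>
    change dl x = _
    rw [Fintype.sum_unique]
    unfold dl tpr
    simp [eq_comm]
  | succ q ih =>
    change ∑ᶠ y, cvp a q y * a (y⁻¹ * x) = _
    rw [finsum_eq_sum_of_fintype]
    have h1 : ∀ y, cvp a q y * a (y⁻¹ * x) = ∑ t : Fin q → G, if tpr t = y then (∏ i, a (t i)) * a (y⁻¹ * x) else 0 := by
      intro y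
      rw [ih, Finset.sum_mul]
      refine Finset.sum_congr rfl fun t _ => ?_
      split_ifs
      · rfl
      · rw [zero_mul]
    rw [Finset.sum_congr rfl fun y _ => h1 y, Finset.sum_comm]
    have h2 : ∀ t : Fin q → G, ∑ y, (if tpr t = y then (∏ i, a (t i)) * a (y⁻¹ * x) else 0) =
        (∏ i, a (t i)) * a ((tpr t)⁻¹ * x) := by
      intro t
      rw [Finset.sum_ite_eq Finset.univ (tpr t), if_pos (Finset.mem_univ _)]
    rw [Finset.sum_congr rfl fun t _ => h2 t]
    -- split off the last entry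
    let e : (G × (Fin q → G)) ≃ (Fin (q + 1) → G) := Fin.snocEquiv (fun _ => G)
    have h3 : ∑ t : Fin (q + 1) → G, (if tpr t = x then ∏ i, a (t i) else 0) =
        ∑ s : G × (Fin q → G), if tpr (e s) = x then ∏ i, a (e s i) else 0 :=
      (Equiv.sum_comp e _).symm
    rw [h3, Fintype.sum_prod_type, Finset.sum_comm]
    refine Finset.sum_congr rfl fun t _ => ?_
    have h4 : ∀ g : G, tpr (e (g, t)) = tpr t * g := by
      intro g
      change (List.ofFn (Fin.snoc t g : Fin (q + 1) → G)).prod = _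
      rw [List.ofFn_succ']
      simp [tpr, Fin.snoc_castSucc, Fin.snoc_last, List.concat_eq_append]
    have h5 : ∀ g : G, ∏ i, a (e (g, t) i) = (∏ i, a (t i)) * a g := by
      intro g
      rw [Fin.prod_univ_castSucc]
      change (∏ i : Fin q, a ((Fin.snoc t g : Fin (q + 1) → G) i.castSucc)) * a ((Fin.snoc t g : Fin (q + 1) → G) (Fin.last q)) = _
      simp only [Fin.snoc_castSucc, Fin.snoc_last]
    have h6 : ∀ g : G, (if tpr (e (g, t)) = x then ∏ i, a (e (g, t) i) else 0) =
        if (tpr t)⁻¹ * x = g then (∏ i, a (t i)) * a g else 0 := by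
      intro g
      rw [h4 g, h5 g]
      by_cases h : tpr t * g = x
      · rw [if_pos h, if_pos]
        rw [← h, inv_mul_cancel_left]
      · rw [if_neg h, if_neg]
        intro h'
        exact h (by rw [← h', mul_inv_cancel_left])
    rw [Finset.sum_congr rfl fun g _ => h6 g, Finset.sum_ite_eq Finset.univ ((tpr t)⁻¹ * x), if_pos (Finset.mem_univ _)]

end Pool.Agent.LE
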