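import Mathlib
import Pool.Agent.helper83.GR.Spec

/-!
# Project BR (MP_baa4d7_al): functions on a finite poset with small upper sums
-/

set_option autoImplicit false

namespace Pool.Agent.LE

open Pool.Agent.helper58.DC Pool.Agent.DI Pool.Agent.GR

open Classical in
/-- **UPS**. A function on a finite partial order whose sums over the upper sets of all `s ≥ s₀` are small is small at all `s ≥ s₀`. -/
theorem UPS {p : ℕ} {M : Ideal (integralClosure ℤ ℂ)} (hS : Setup p M) {α : Type} [PartialOrder α] [Fintype α]
    (F : α → ℂ) (r : ℕ) (s₀ : α) (h : ∀ s, s₀ ≤ s → Small p M r (∑ s' ∈ Finset.univ.filter (fun s' => s ≤ s'), F s')) :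
    ∀ s, s₀ ≤ s → Small p M r (F s) := by
  intro s
  induction s using WellFoundedGT.induction with
  | ind s ih =>
    intro hs
    have h1 := h s hs
    have h2 : Finset.univ.filter (fun s' => s ≤ s') = insert s (Finset.univ.filter (fun s' => s < s')) := by
      ext t
      simp only [Finset.mem_filter, Finset.mem_univ, true_and, Finset.mem_insert]
      constructor
      · intro ht
        rcases eq_or_lt_of_le ht with h3 | h3
        · exact Or.inl h3.symm
        · exact Or.inr h3
      · rintro (h3 | h3)
        · exact h3 ▸ le_rfl
        · exact h3.le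
    rw [h2, Finset.sum_insert (by simp)] at h1
    have h3 : Small p M r (∑ s' ∈ Finset.univ.filter (fun s' => s < s'), F s') := by
      refine Small.sum hS _ fun t ht => ?_
      have h4 : s < t := (Finset.mem_filter.1 ht).2
      exact ih t h4 (hs.trans h4.le)
    have h5 := Small.sub hS h1 h3
    rwa [add_sub_cancel_right] at h5

end Pool.Agent.LE
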