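import Pool.Agent.helper36.BP.SpecE

/-!
# Row SCW of project bp (MP_ad8ced_nt, owner helper36)
-/

set_option autoImplicit false

open Finset
open Pool.Agent.FI Pool.Agent.HK
open Pool.Agent.CH (nit rgh ll2)
open Pool.Agent.SK (tr0 Th)

noncomputable section

namespace Pool.Agent.BP

/-- The difference of the logarithms, ordered version. -/
theorem SCW_diff0 {w b x x' : ℝ} (hb : b < w) (hx : |x| ≤ b) (hx' : |x'| ≤ b) (hxx : x ≤ x') :
    (x' - x) * (2 / (w + b)) ≤ Real.log ((w + x') / (w - x')) - Real.log ((w + x) / (w - x)) := by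
  obtain ⟨hx1, hx2⟩ := abs_le.1 hx
  obtain ⟨hy1, hy2⟩ := abs_le.1 hx'
  have p1 : 0 < w + x := by linarith
  have p2 : 0 < w - x := by linarith
  have p3 : 0 < w + x' := by linarith
  have p4 : 0 < w - x' := by linarith
  have p5 : 0 < w + b := by linarith
  have e1 : Real.log ((w + x') / (w - x')) - Real.log ((w + x) / (w - x)) =
      Real.log ((w + x') / (w + x)) + Real.log ((w - x) / (w - x')) := by
    rw [Real.log_div p3.ne' p4.ne', Real.log_div p1.ne' p2.ne', Real.log_div p3.ne' p1.ne',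
      Real.log_div p2.ne' p4.ne']
    ring
  have h1 := Real.one_sub_inv_le_log_of_pos (div_pos p3 p1)
  have h2 := Real.one_sub_inv_le_log_of_pos (div_pos p2 p4)
  have e2 : 1 - ((w + x') / (w + x))⁻¹ = (x' - x) * (1 / (w + x')) := by
    rw [inv_div]
    field_simp
    ring
  have e3 : 1 - ((w - x) / (w - x'))⁻¹ = (x' - x) * (1 / (w - x)) := by
    rw [inv_div]
    field_simp
    ring
  rw [e2] at h1
  rw [e3] at h2
  have h3 : 1 / (w + b) ≤ 1 / (w + x') := one_div_le_one_div_of_le p3 (by linarith)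
  have h4 : 1 / (w + b) ≤ 1 / (w - x) := one_div_le_one_div_of_le p2 (by linarith)
  have h5 := mul_le_mul_of_nonneg_left h3 (show 0 ≤ x' - x by linarith)
  have h6 := mul_le_mul_of_nonneg_left h4 (show 0 ≤ x' - x by linarith)
  rw [e1]
  calc (x' - x) * (2 / (w + b)) = (x' - x) * (1 / (w + b)) + (x' - x) * (1 / (w + b)) := by ring
    _ ≤ _ := by linarith

/-- Two points with almost the same logarithm are close. -/
theorem SCW_diff {w b x x' c ρ : ℝ} (hb : b < w) (hx : |x| ≤ b) (hx' : |x'| ≤ b)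
    (h1 : |Real.log ((w + x) / (w - x)) - c| ≤ ρ) (h2 : |Real.log ((w + x') / (w - x')) - c| ≤ ρ) :
    |x' - x| ≤ ρ * (w + b) := by
  have p5 : 0 < w + b := by
    have := abs_nonneg x
    linarith
  obtain ⟨a1, a2⟩ := abs_le.1 h1
  obtain ⟨b1, b2⟩ := abs_le.1 h2
  rcases le_total x x' with h | h
  · have h3 := SCW_diff0 hb hx hx' h
    rw [abs_of_nonneg (by linarith)]
    have h4 : (x' - x) * (2 / (w + b)) ≤ 2 * ρ := by linarith
    have h5 : (x' - x) * (2 / (w + b)) = 2 * ((x' - x) / (w + b)) := by ring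
    rw [h5] at h4
    have h6 : (x' - x) / (w + b) ≤ ρ := by linarith
    rwa [div_le_iff₀ p5] at h6
  · have h3 := SCW_diff0 hb hx' hx h
    rw [abs_sub_comm, abs_of_nonneg (by linarith)]
    have h4 : (x - x') * (2 / (w + b)) ≤ 2 * ρ := by linarith
    have h5 : (x - x') * (2 / (w + b)) = 2 * ((x - x') / (w + b)) := by ring
    rw [h5] at h4
    have h6 : (x - x') / (w + b) ≤ ρ := by linarith
    rwa [div_le_iff₀ p5] at h6

/-- A set of integers of small diameter. -/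
theorem SCW_card (S : Finset ℤ) (D : ℝ) (hD : 0 ≤ D) (h : ∀ x ∈ S, ∀ y ∈ S, |(y : ℝ) - x| ≤ D) :
    (S.card : ℝ) ≤ D + 1 := by
  rcases S.eq_empty_or_nonempty with h0 | h0
  · subst h0
    simp
    linarith
  · have hsub : S ⊆ Icc (S.min' h0) (S.max' h0) := by
      intro x hx
      rw [mem_Icc]
      exact ⟨S.min'_le x hx, S.le_max' x hx⟩
    have h1 := card_le_card hsub
    rw [Int.card_Icc] at h1
    have h2 := h _ (S.min'_mem h0) _ (S.max'_mem h0)
    have h3 : S.min' h0 ≤ S.max' h0 := S.min'_le _ (S.max'_mem h0)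
    have h4 : ((S.max' h0 + 1 - S.min' h0).toNat : ℤ) = S.max' h0 + 1 - S.min' h0 :=
      Int.toNat_of_nonneg (by omega)
    have h5 : (((S.max' h0 + 1 - S.min' h0).toNat : ℕ) : ℝ) = (S.max' h0 : ℝ) + 1 - S.min' h0 := by
      have := congrArg (fun t : ℤ => (t : ℝ)) h4
      push_cast at this
      exact this
    calc (S.card : ℝ) ≤ ((S.max' h0 + 1 - S.min' h0).toNat : ℕ) := by exact_mod_cast h1
      _ = (S.max' h0 : ℝ) + 1 - S.min' h0 := h5
      _ ≤ D + 1 := by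
        have := (le_abs_self _).trans h2
        linarith

/-- The rows. -/
theorem SCW_rows (T : Finset (ℤ × ℤ)) (f g : ℤ × ℤ → ℤ) (hfg : ∀ z w : ℤ × ℤ, f z = f w → g z = g w → z = w)
    (s : ℕ) (K ρ : ℝ) (hK : 0 ≤ K) (hρ : 0 ≤ ρ) (hT : ∀ z ∈ T, 1 ≤ f z ∧ f z ≤ s)
    (hd : ∀ z ∈ T, ∀ w ∈ T, f z = f w → |(g w : ℝ) - g z| ≤ K * ρ * f z) :
    (T.card : ℝ) ≤ s * (K * ρ * s + 1) := by
  classical
  have h1 : T.card = ∑ l ∈ Icc (1 : ℤ) s, #{z ∈ T | f z = l} :=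
    card_eq_sum_card_fiberwise (fun z hz => by
      rw [mem_coe] at hz
      rw [mem_coe, mem_Icc]
      exact hT z hz)
  have h2 : ∀ l ∈ Icc (1 : ℤ) s, (#{z ∈ T | f z = l} : ℝ) ≤ K * ρ * s + 1 := by
    intro l hl
    rw [mem_Icc] at hl
    have hl1 : (l : ℝ) ≤ s := by exact_mod_cast hl.2
    have hl0 : (0 : ℝ) ≤ l := by
      have : (1 : ℝ) ≤ l := by exact_mod_cast hl.1
      linarith
    have h3 : #{z ∈ T | f z = l} = #(({z ∈ T | f z = l}).image g) := by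
      symm
      apply card_image_of_injOn
      intro z hz w hw hzw
      rw [mem_coe, mem_filter] at hz hw
      exact hfg z w (hz.2.trans hw.2.symm) hzw
    rw [h3]
    have hKρ : 0 ≤ K * ρ := mul_nonneg hK hρ
    refine (SCW_card _ (K * ρ * l) (mul_nonneg hKρ hl0) ?_).trans ?_
    · intro x hx y hy
      obtain ⟨z, hz, rfl⟩ := mem_image.1 hx
      obtain ⟨w, hw, rfl⟩ := mem_image.1 hy
      rw [mem_filter] at hz hw
      have := hd z hz.1 w hw.1 (hz.2.trans hw.2.symm)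
      rwa [hz.2] at this
    · have := mul_le_mul_of_nonneg_left hl1 hKρ
      linarith
  rw [h1]
  push_cast
  refine (sum_le_sum h2).trans (le_of_eq ?_)
  rw [sum_const, Int.card_Icc, nsmul_eq_mul]
  congr 1
  simp

theorem SCW_s8 : 2 ≤ √(8 : ℝ) ∧ √(8 : ℝ) ≤ 3 ∧ 2 < √(8 : ℝ) := by
  refine ⟨Real.le_sqrt_of_sq_le (by norm_num), Real.sqrt_le_iff.2 ⟨by norm_num, by norm_num⟩,
    Real.lt_sqrt_of_sq_lt (by norm_num)⟩

theorem SCW : SCW_stmt := by
  classical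
  obtain ⟨hs1, hs2, hs3⟩ := SCW_s8
  refine ⟨7, by norm_num, ?_⟩
  intro v c ρ hv hρ
  set A := {z ∈ FE v | |yy z - c| ≤ ρ} with hA
  set A2 := {z ∈ A | |z.1| < 2 * z.2} with hA2
  set A1 := {z ∈ A | 4 * |z.2| < z.1} with hA1
  have hsub : A ⊆ A1 ∪ A2 := by
    intro z hz
    have h1 := hz
    rw [hA, mem_filter, FE, mem_filter] at h1
    rw [mem_union]
    rcases h1.1.2.1 with h | h
    · left
      rw [hA1, mem_filter]
      exact ⟨hz, h⟩
    · right
      rw [hA2, mem_filter]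
      exact ⟨hz, h⟩
  have hmem : ∀ z ∈ A, (nn z : ℤ) ≤ v ∧ |yy z - c| ≤ ρ := by
    intro z hz
    rw [hA, mem_filter, FE, mem_filter] at hz
    exact ⟨by exact_mod_cast hz.1.2.2, hz.2⟩
  -- region 2
  have hB2 : (A2.card : ℝ) ≤ (Nat.sqrt v : ℕ) * (5 * ρ * (Nat.sqrt v : ℕ) + 1) := by
    refine SCW_rows A2 (fun z => z.2) (fun z => z.1) (fun z w h1 h2 => Prod.ext h2 h1) (Nat.sqrt v) 5 ρ
      (by norm_num) hρ ?_ ?_
    · intro z hz
      rw [hA2, mem_filter] at hz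
      obtain ⟨hzA, hz2⟩ := hz
      have h1 := (hmem z hzA).1
      have h0 : 0 ≤ |z.1| := abs_nonneg _
      have hl : 1 ≤ z.2 := by omega
      refine ⟨hl, ?_⟩
      have h2 : z.1 ^ 2 ≤ (2 * z.2) ^ 2 := by
        rw [← sq_abs z.1]
        exact pow_le_pow_left₀ h0 hz2.le 2
      have h3 : 8 * z.2 ^ 2 - z.1 ^ 2 ≤ v := by
        refine le_trans ?_ h1
        unfold nn N8
        rw [Int.natCast_natAbs]
        have := neg_le_abs (z.1 ^ 2 - 8 * z.2 ^ 2)
        linarith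
      have h4 : z.2 ^ 2 ≤ v := by nlinarith
      have h5 : z.2.toNat ^ 2 ≤ v := by
        have h6 : ((z.2.toNat : ℕ) : ℤ) = z.2 := Int.toNat_of_nonneg (by omega)
        have h7 : ((z.2.toNat ^ 2 : ℕ) : ℤ) ≤ v := by
          push_cast
          rw [h6]
          exact h4
        exact_mod_cast h7
      have h8 : z.2.toNat ≤ Nat.sqrt v := Nat.le_sqrt'.2 h5
      show z.2 ≤ ((Nat.sqrt v : ℕ) : ℤ)
      omega
    · intro z hz w hw hzw
      rw [hA2, mem_filter] at hz hw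
      have hzl : (1 : ℝ) ≤ z.2 := by
        have h0 : 0 ≤ |z.1| := abs_nonneg _
        have : 1 ≤ z.2 := by
          have := hz.2
          omega
        exact_mod_cast this
      have key : ∀ t : ℤ × ℤ, |t.1| < 2 * t.2 → |yy t - c| ≤ ρ → t.2 = z.2 →
          |(t.1 : ℝ)| ≤ 2 * z.2 ∧
          |Real.log (((z.2 : ℝ) * √8 + t.1) / ((z.2 : ℝ) * √8 - t.1)) - c| ≤ ρ := by
        intro t ht hyt htz
        have h1 : |(t.1 : ℝ)| < 2 * z.2 := by
          rw [← htz]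
          exact_mod_cast ht
        refine ⟨h1.le, ?_⟩
        obtain ⟨h2, h3⟩ := abs_lt.1 h1
        have h4 : 2 * (z.2 : ℝ) ≤ z.2 * √8 := by nlinarith
        have e1 : |(t.1 : ℝ) + t.2 * √8| = (z.2 : ℝ) * √8 + t.1 := by
          rw [htz, abs_of_nonneg (by linarith)]
          ring
        have e2 : |(t.1 : ℝ) - t.2 * √8| = (z.2 : ℝ) * √8 - t.1 := by
          rw [htz, abs_of_nonpos (by linarith)]
          ring
        have e3 : yy t = Real.log (((z.2 : ℝ) * √8 + t.1) / ((z.2 : ℝ) * √8 - t.1)) := by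
          unfold yy
          rw [e1, e2]
        rw [← e3]
        exact hyt
      obtain ⟨k1, k2⟩ := key z hz.2 (hmem z hz.1).2 rfl
      obtain ⟨k3, k4⟩ := key w hw.2 (hmem w hw.1).2 hzw.symm
      have h5 := SCW_diff (w := (z.2 : ℝ) * √8) (b := 2 * z.2) (by nlinarith) k1 k3 k2 k4
      refine h5.trans ?_
      have h6 : (z.2 : ℝ) * √8 + 2 * z.2 ≤ 5 * z.2 := by nlinarith
      calc ρ * ((z.2 : ℝ) * √8 + 2 * z.2) ≤ ρ * (5 * z.2) := mul_le_mul_of_nonneg_left h6 hρ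
        _ = 5 * ρ * z.2 := by ring
  -- region 1
  have hB1 : (A1.card : ℝ) ≤ (Nat.sqrt (2 * v) : ℕ) * (1 * ρ * (Nat.sqrt (2 * v) : ℕ) + 1) := by
    refine SCW_rows A1 (fun z => z.1) (fun z => z.2) (fun z w h1 h2 => Prod.ext h1 h2) (Nat.sqrt (2 * v)) 1 ρ
      (by norm_num) hρ ?_ ?_
    · intro z hz
      rw [hA1, mem_filter] at hz
      obtain ⟨hzA, hz2⟩ := hz
      have h1 := (hmem z hzA).1
      have h0 : 0 ≤ |z.2| := abs_nonneg _
      have hl : 1 ≤ z.1 := by omega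
      refine ⟨hl, ?_⟩
      have h2 : (4 * |z.2|) ^ 2 ≤ z.1 ^ 2 := pow_le_pow_left₀ (by omega) hz2.le 2
      rw [mul_pow, sq_abs] at h2
      have h3 : z.1 ^ 2 - 8 * z.2 ^ 2 ≤ v := by
        refine le_trans ?_ h1
        unfold nn N8
        rw [Int.natCast_natAbs]
        exact le_abs_self _
      have h4 : z.1 ^ 2 ≤ 2 * v := by nlinarith
      have h5 : z.1.toNat ^ 2 ≤ 2 * v := by
        have h6 : ((z.1.toNat : ℕ) : ℤ) = z.1 := Int.toNat_of_nonneg (by omega)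
        have h7 : ((z.1.toNat ^ 2 : ℕ) : ℤ) ≤ ((2 * v : ℕ) : ℤ) := by
          push_cast
          rw [h6]
          exact h4
        exact_mod_cast h7
      have h8 : z.1.toNat ≤ Nat.sqrt (2 * v) := Nat.le_sqrt'.2 h5
      show z.1 ≤ ((Nat.sqrt (2 * v) : ℕ) : ℤ)
      omega
    · intro z hz w hw hzw
      rw [hA1, mem_filter] at hz hw
      have hzl : (1 : ℝ) ≤ z.1 := by
        have h0 : 0 ≤ |z.2| := abs_nonneg _
        have : 1 ≤ z.1 := by
          have := hz.2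
          omega
        exact_mod_cast this
      have key : ∀ t : ℤ × ℤ, 4 * |t.2| < t.1 → |yy t - c| ≤ ρ → t.1 = z.1 →
          |(t.2 : ℝ) * √8| ≤ 3 / 4 * z.1 ∧
          |Real.log (((z.1 : ℝ) + t.2 * √8) / ((z.1 : ℝ) - t.2 * √8)) - c| ≤ ρ := by
        intro t ht hyt htz
        have h1 : 4 * |(t.2 : ℝ)| < z.1 := by
          rw [← htz]
          exact_mod_cast ht
        have h0 : 0 ≤ |(t.2 : ℝ)| := abs_nonneg _
        have h2 : |(t.2 : ℝ) * √8| ≤ 3 / 4 * z.1 := by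
          rw [abs_mul, abs_of_nonneg (Real.sqrt_nonneg 8)]
          nlinarith
        refine ⟨h2, ?_⟩
        obtain ⟨h3, h4⟩ := abs_le.1 h2
        have e1 : |(t.1 : ℝ) + t.2 * √8| = (z.1 : ℝ) + t.2 * √8 := by
          rw [htz, abs_of_nonneg (by linarith)]
        have e2 : |(t.1 : ℝ) - t.2 * √8| = (z.1 : ℝ) - t.2 * √8 := by
          rw [htz, abs_of_nonneg (by linarith)]
        have e3 : yy t = Real.log (((z.1 : ℝ) + t.2 * √8) / ((z.1 : ℝ) - t.2 * √8)) := by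
          unfold yy
          rw [e1, e2]
        rw [← e3]
        exact hyt
      obtain ⟨k1, k2⟩ := key z hz.2 (hmem z hz.1).2 rfl
      obtain ⟨k3, k4⟩ := key w hw.2 (hmem w hw.1).2 hzw.symm
      have h5 := SCW_diff (w := (z.1 : ℝ)) (b := 3 / 4 * z.1) (by linarith) k1 k3 k2 k4
      have h6 : |(w.2 : ℝ) * √8 - z.2 * √8| = |(w.2 : ℝ) - z.2| * √8 := by
        rw [← sub_mul, abs_mul, abs_of_nonneg (Real.sqrt_nonneg 8)]
      rw [h6] at h5
      have h7 : |(w.2 : ℝ) - z.2| * 2 ≤ |(w.2 : ℝ) - z.2| * √8 :=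
        mul_le_mul_of_nonneg_left hs1 (abs_nonneg _)
      have h8 : ρ * ((z.1 : ℝ) + 3 / 4 * z.1) ≤ ρ * (2 * z.1) :=
        mul_le_mul_of_nonneg_left (by linarith) hρ
      show |(w.2 : ℝ) - z.2| ≤ 1 * ρ * (z.1 : ℝ)
      nlinarith
  have hv1 : (1 : ℝ) ≤ v := by exact_mod_cast hv
  have hv0 : (0 : ℝ) ≤ v := by linarith
  have q1 : ((Nat.sqrt v : ℕ) : ℝ) ≤ √v := Real.nat_sqrt_le_real_sqrt
  have q2 : ((Nat.sqrt (2 * v) : ℕ) : ℝ) ≤ √((2 * v : ℕ) : ℝ) := Real.nat_sqrt_le_real_sqrt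
  have q3 : √((2 * v : ℕ) : ℝ) ≤ 2 * √v := by
    rw [Real.sqrt_le_left (by positivity)]
    rw [mul_pow, Real.sq_sqrt hv0]
    push_cast
    linarith
  have q4 : √(v : ℝ) * √v = v := Real.mul_self_sqrt hv0
  have q5 : ((Nat.sqrt (2 * v) : ℕ) : ℝ) * (Nat.sqrt (2 * v) : ℕ) ≤ 2 * v := by
    have : Nat.sqrt (2 * v) * Nat.sqrt (2 * v) ≤ 2 * v := Nat.sqrt_le _
    exact_mod_cast this
  have q6 : ((Nat.sqrt v : ℕ) : ℝ) * (Nat.sqrt v : ℕ) ≤ v := by
    have : Nat.sqrt v * Nat.sqrt v ≤ v := Nat.sqrt_le _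
    exact_mod_cast this
  have hcard : (A.card : ℝ) ≤ A1.card + A2.card := by
    exact_mod_cast (card_le_card hsub).trans (card_union_le _ _)
  have r1 : ((Nat.sqrt v : ℕ) : ℝ) * (5 * ρ * (Nat.sqrt v : ℕ) + 1) ≤ 5 * ρ * v + √v := by
    have := mul_le_mul_of_nonneg_left q6 (show 0 ≤ 5 * ρ by positivity)
    nlinarith
  have r2 : ((Nat.sqrt (2 * v) : ℕ) : ℝ) * (1 * ρ * (Nat.sqrt (2 * v) : ℕ) + 1) ≤ 2 * ρ * v + 2 * √v := by
    have := mul_le_mul_of_nonneg_left q5 hρ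
    nlinarith
  have hsv : 0 ≤ √(v : ℝ) := Real.sqrt_nonneg _
  calc (A.card : ℝ) ≤ A1.card + A2.card := hcard
    _ ≤ (2 * ρ * v + 2 * √v) + (5 * ρ * v + √v) := add_le_add (hB1.trans r2) (hB2.trans r1)
    _ ≤ 7 * (ρ * v + √v) := by linarith

end Pool.Agent.BP
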