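import Pool.Agent.helper36.BP.SpecD

/-!
# Project bp, row HBI: Heath-Brown's identity of order 3
-/

set_option autoImplicit false

open Finset
open Pool.Agent.FI Pool.Agent.HK
open Pool.Agent.CH (nit rgh ll2)
open Pool.Agent.SK (tr0 Th)

noncomputable section

namespace Pool.Agent.BP

theorem HBI_sub (A B : ArithmeticFunction ℂ) (n : ℕ) : (A - B) n = A n - B n := by
  have h : A - B + B = A := sub_add_cancel A B
  have h2 := congrArg (fun f : ArithmeticFunction ℂ => f n) h
  simp only [ArithmeticFunction.add_apply] at h2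
  linear_combination h2

theorem HBI_van (A B : ArithmeticFunction ℂ) (a b : ℕ) (hA : ∀ m, m ≤ a → A m = 0)
    (hB : ∀ m, m ≤ b → B m = 0) (n : ℕ) (hn : n ≤ a * b) : (A * B) n = 0 := by
  rw [ArithmeticFunction.mul_apply]
  refine Finset.sum_eq_zero fun x hx => ?_
  have h := (Nat.mem_divisorsAntidiagonal.mp hx).1
  by_cases h1 : x.1 ≤ a
  · rw [hA _ h1, zero_mul]
  · by_cases h2 : x.2 ≤ b
    · rw [hB _ h2, mul_zero]
    · exfalso
      push Not at h1 h2
      have : a * b < x.1 * x.2 := Nat.mul_lt_mul'' h1 h2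
      omega

theorem HBI_eps (F G : ArithmeticFunction ℂ) (z : ℕ) (hFG : F * G = 1) (m : ℕ) (hm : m ≤ z) :
    (1 - F * trn z G) m = 0 := by
  have h : (F * trn z G) m = (F * G) m := by
    rw [ArithmeticFunction.mul_apply, ArithmeticFunction.mul_apply]
    refine Finset.sum_congr rfl fun x hx => ?_
    have h1 := Nat.mem_divisorsAntidiagonal.mp hx
    have h2 : x.2 ≤ z := by
      refine le_trans (Nat.le_of_dvd (Nat.pos_of_ne_zero h1.2) ⟨x.1, ?_⟩) hm
      rw [mul_comm]; exact h1.1.symm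
    have h3 : trn z G x.2 = G x.2 := by
      show (if x.2 ≤ z then G x.2 else 0) = G x.2
      rw [if_pos h2]
    rw [h3]
  rw [HBI_sub, h, hFG, sub_self]

theorem HBI : HBI_stmt := by
  intro F G H z n hFG hn1 hn
  have he := HBI_eps F G z hFG
  obtain ⟨e, hee⟩ : ∃ e : ArithmeticFunction ℂ, e = 1 - F * trn z G := ⟨_, rfl⟩
  rw [← hee] at he
  have h2 : ∀ m, m ≤ z * z → (e * e) m = 0 := HBI_van e e z z he he
  have h3 : ∀ m, m ≤ z * z * z → (e * e * e) m = 0 := HBI_van (e * e) e (z * z) z h2 he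
  have h4 : (G * H * (e * e * e)) n = 0 := by
    rw [ArithmeticFunction.mul_apply]
    refine Finset.sum_eq_zero fun x hx => ?_
    have h := Nat.mem_divisorsAntidiagonal.mp hx
    have h5 : x.2 ≤ n := Nat.le_of_dvd (by omega) ⟨x.1, by rw [mul_comm]; exact h.1.symm⟩
    rw [h3 x.2 (by nlinarith [h5, hn, pow_succ z 2, pow_two z]), mul_zero]
  have h6 : G * H * (e * e * e) = G * H - (3 * (trn z G * H) - 3 * (trn z G ^ 2 * F * H) +
      trn z G ^ 3 * F ^ 2 * H) := by
    rw [hee]
    linear_combination (-3 * (trn z G) * H + 3 * (trn z G) ^ 2 * F * H -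
      (trn z G) ^ 3 * F ^ 2 * H) * hFG
  rw [h6] at h4
  have h7 : Icc 1 3 = ({1, 2, 3} : Finset ℕ) := by decide
  rw [h7, Finset.sum_insert (by decide), Finset.sum_insert (by decide), Finset.sum_singleton]
  have h8 : ((3 : ArithmeticFunction ℂ) * (trn z G * H)) n = 3 * (trn z G * H) n := by
    have : (3 : ArithmeticFunction ℂ) * (trn z G * H) =
        trn z G * H + trn z G * H + trn z G * H := by ring
    rw [this, ArithmeticFunction.add_apply, ArithmeticFunction.add_apply]; ring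
  have h9 : ((3 : ArithmeticFunction ℂ) * (trn z G ^ 2 * F * H)) n = 3 * (trn z G ^ 2 * F * H) n := by
    have : (3 : ArithmeticFunction ℂ) * (trn z G ^ 2 * F * H) =
        trn z G ^ 2 * F * H + trn z G ^ 2 * F * H + trn z G ^ 2 * F * H := by ring
    rw [this, ArithmeticFunction.add_apply, ArithmeticFunction.add_apply]; ring
  rw [HBI_sub, ArithmeticFunction.add_apply, HBI_sub,
    h8, h9] at h4
  have c1 : Nat.choose 3 1 = 3 := by decide
  have c2 : Nat.choose 3 2 = 3 := by decide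
  have c3 : Nat.choose 3 3 = 1 := by decide
  rw [c1, c2, c3]
  have d1 : trn z G ^ 1 * F ^ (1 - 1) * H = trn z G * H := by
    rw [pow_one, Nat.sub_self, pow_zero, mul_one]
  have d2 : trn z G ^ 2 * F ^ (2 - 1) * H = trn z G ^ 2 * F * H := by
    have : 2 - 1 = 1 := rfl
    rw [this, pow_one]
  have d3 : trn z G ^ 3 * F ^ (3 - 1) * H = trn z G ^ 3 * F ^ 2 * H := rfl
  rw [d1, d2, d3]
  have e1 : ((3 : ℕ) : ℂ) = 3 := by norm_num
  have e2 : ((1 : ℕ) : ℂ) = 1 := by norm_num
  rw [e1, e2]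
  linear_combination h4

end Pool.Agent.BP
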